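import Pool.Agent.Helper40.AV.St

/-!
# Project AV, module AV1: Mertens' third theorem with the constant `exp (-γ)`
-/

set_option autoImplicit false

open Filter Topology MeasureTheory Set

namespace Pool.Agent.Helper9.AV

open Pool.Agent.Helper44 (primesUpTo mem_primesUpTo mertens_interval one_sub_ge_exp')
open Pool.Agent.Helper40.AV

/-! ### the general integral formula -/

theorem int_Ici (a c : ℝ) (ha : 0 ≤ a) :
    IntegrableOn (fun t : ℝ => if a ≤ t then c * Real.exp (-t) else 0) (Ioi 0) ∧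
    ∫ t in Ioi (0 : ℝ), (if a ≤ t then c * Real.exp (-t) else 0) = c * Real.exp (-a) := by
  have e : (fun t : ℝ => if a ≤ t then c * Real.exp (-t) else 0) =
      (Ici a).indicator (fun t => c * Real.exp (-t)) := by
    funext t
    simp only [indicator, mem_Ici]
  have hint : IntegrableOn (fun t : ℝ => c * Real.exp (-t)) (Ioi 0) :=
    (integrableOn_exp_neg_Ioi 0).const_mul c
  refine ⟨?_, ?_⟩
  · rw [e]
    exact hint.indicator measurableSet_Ici
  · rw [e, setIntegral_indicator measurableSet_Ici]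
    have h1 : (Ioi 0 ∩ Ici a : Set ℝ) =ᵐ[volume] Ioi a := by
      have h2 : (Ioi 0 ∩ Ici a : Set ℝ) =ᵐ[volume] (Ioi 0 ∩ Ioi a : Set ℝ) :=
        (ae_eq_refl _).inter Ioi_ae_eq_Ici.symm
      rw [Ioi_inter_Ioi, sup_eq_right.2 ha] at h2
      exact h2
    rw [setIntegral_congr_set h1, integral_const_mul, integral_exp_neg_Ioi]

theorem laplace (c lam : ℕ → ℝ) (hc : ∀ n, 0 ≤ c n) (hl : ∀ n, 0 ≤ lam n) (δ : ℝ) (hδ : 0 < δ)
    (hs : Summable fun n => c n * Real.exp (-(δ * lam n))) (S : ℝ → ℝ)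
    (hS : ∀ u, 0 < u → HasSum (fun n => if lam n ≤ u then c n else 0) (S u)) :
    ∫ t in Ioi (0 : ℝ), S (t / δ) * Real.exp (-t) = ∑' n, c n * Real.exp (-(δ * lam n)) := by
  have h1 : ∀ n, 0 ≤ δ * lam n := fun n => mul_nonneg hδ.le (hl n)
  have h2 := hasSum_integral_of_summable_integral_norm (μ := volume.restrict (Ioi (0 : ℝ)))
    (F := fun (n : ℕ) (t : ℝ) => if δ * lam n ≤ t then c n * Real.exp (-t) else 0)
    (fun n => (int_Ici (δ * lam n) (c n) (h1 n)).1) ?_
  · have h3 := h2.tsum_eq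
    rw [← tsum_congr fun n => (int_Ici (δ * lam n) (c n) (h1 n)).2, h3]
    refine setIntegral_congr_fun measurableSet_Ioi ?_
    intro t ht
    have ht' : 0 < t / δ := div_pos ht hδ
    have h4 := (hS _ ht').mul_right (Real.exp (-t))
    have h5 : (fun n => (if lam n ≤ t / δ then c n else 0) * Real.exp (-t)) =
        fun n => if δ * lam n ≤ t then c n * Real.exp (-t) else 0 := by
      funext n
      have : lam n ≤ t / δ ↔ δ * lam n ≤ t := le_div_iff₀' hδ
      by_cases h6 : lam n ≤ t / δ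
      · rw [if_pos h6, if_pos (this.1 h6)]
      · rw [if_neg h6, if_neg fun h => h6 (this.2 h), zero_mul]
    rw [h5] at h4
    exact h4.tsum_eq.symm
  · refine hs.congr fun n => ?_
    rw [← (int_Ici (δ * lam n) (c n) (h1 n)).2]
    refine setIntegral_congr_fun measurableSet_Ioi ?_
    intro t _
    show _ = ‖_‖
    dsimp only
    split_ifs
    · rw [Real.norm_of_nonneg (mul_nonneg (hc n) (Real.exp_pos _).le)]
    · rw [norm_zero]

/-- the Abelian theorem -/
theorem abel (G : ℝ → ℝ) (κ M : ℝ) (hm : Measurable G) (hM : ∀ u, 0 < u → |G u| ≤ M)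
    (hG : Tendsto G atTop (𝓝 κ)) :
    Tendsto (fun δ : ℝ => ∫ t in Ioi (0 : ℝ), G (t / δ) * Real.exp (-t)) (𝓝[>] 0) (𝓝 κ) := by
  have h1 : ∫ t in Ioi (0 : ℝ), κ * Real.exp (-t) = κ := by
    rw [integral_const_mul, integral_exp_neg_Ioi, neg_zero, Real.exp_zero, mul_one]
  rw [← h1]
  refine tendsto_integral_filter_of_dominated_convergence (fun t => M * Real.exp (-t)) ?_ ?_ ?_ ?_
  · refine Eventually.of_forall fun δ => ?_
    refine Measurable.aestronglyMeasurable ?_
    exact (hm.comp (measurable_id.div_const δ)).mul (Real.measurable_exp.comp measurable_neg)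
  · filter_upwards [self_mem_nhdsWithin] with δ hδ
    refine (ae_restrict_iff' measurableSet_Ioi).2 (Eventually.of_forall fun t ht => ?_)
    rw [Real.norm_eq_abs, abs_mul, abs_of_pos (Real.exp_pos _)]
    exact mul_le_mul_of_nonneg_right (hM _ (div_pos ht hδ)) (Real.exp_pos _).le
  · exact (integrableOn_exp_neg_Ioi 0).const_mul M
  · refine (ae_restrict_iff' measurableSet_Ioi).2 (Eventually.of_forall fun t ht => ?_)
    refine Tendsto.mul_const _ (hG.comp ?_)
    have h2 : Tendsto (fun δ : ℝ => t * δ⁻¹) (𝓝[>] 0) atTop :=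
      tendsto_inv_nhdsGT_zero.const_mul_atTop ht
    exact h2

/-! ### the two step functions -/

/-- `-log (1 - 1 / p)` on the primes -/
noncomputable def ca (n : ℕ) : ℝ := if n.Prime then -Real.log (1 - 1 / n) else 0

theorem neg_log_bounds {x : ℝ} (h0 : 0 ≤ x) (h1 : x ≤ 1 / 2) :
    x ≤ -Real.log (1 - x) ∧ -Real.log (1 - x) ≤ x + 2 * x ^ 2 := by
  have h2 : 0 < 1 - x := by linarith
  refine ⟨?_, ?_⟩
  · have := Real.log_le_sub_one_of_pos h2
    linarith
  · have h3 := Real.log_le_log (Real.exp_pos _) (one_sub_ge_exp' h0 h1)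
    rw [Real.log_exp] at h3
    linarith

theorem inv_prime_bounds {n : ℕ} (hn : n.Prime) : (0 : ℝ) ≤ 1 / n ∧ (1 : ℝ) / n ≤ 1 / 2 := by
  have : (2 : ℝ) ≤ n := by exact_mod_cast hn.two_le
  exact ⟨by positivity, one_div_le_one_div_of_le (by norm_num) this⟩

theorem ca_nonneg (n : ℕ) : 0 ≤ ca n := by
  unfold ca
  split_ifs with h
  · obtain ⟨h1, h2⟩ := inv_prime_bounds h
    exact h1.trans (neg_log_bounds h1 h2).1
  · exact le_rfl

theorem ca_le (n : ℕ) : ca n ≤ 2 / n := by
  unfold ca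
  split_ifs with h
  · obtain ⟨h1, h2⟩ := inv_prime_bounds h
    have h3 := (neg_log_bounds h1 h2).2
    have h4 : (2 : ℝ) / n = 2 * (1 / n) := by ring
    rw [h4]
    nlinarith
  · positivity

/-- the sum of `ca` up to `exp u` -/
noncomputable def S1 (u : ℝ) : ℝ := ∑ p ∈ primesUpTo (Real.exp u), ca p

/-- the harmonic sum up to `u` -/
noncomputable def S2 (u : ℝ) : ℝ := ∑ n ∈ Finset.Ioc 0 ⌊u⌋₊, (1 : ℝ) / n

theorem S1_hasSum (u : ℝ) : HasSum (fun n : ℕ => if Real.log n ≤ u then ca n else 0) (S1 u) := by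
  have h : S1 u = ∑ n ∈ primesUpTo (Real.exp u), if Real.log n ≤ u then ca n else 0 := by
    unfold S1
    refine Finset.sum_congr rfl fun n hn => ?_
    rw [mem_primesUpTo (Real.exp_pos _).le] at hn
    have hpos : (0 : ℝ) < n := by exact_mod_cast hn.1.pos
    rw [if_pos]
    rw [← Real.log_exp u]
    exact Real.log_le_log hpos hn.2
  rw [h]
  refine hasSum_sum_of_ne_finset_zero fun n hn => ?_
  rw [mem_primesUpTo (Real.exp_pos _).le] at hn
  by_cases hp : n.Prime
  · have hpos : (0 : ℝ) < n := by exact_mod_cast hp.pos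
    rw [if_neg]
    intro h1
    apply hn
    refine ⟨hp, ?_⟩
    rw [← Real.exp_log hpos]
    exact Real.exp_le_exp.2 h1
  · unfold ca
    rw [if_neg hp, ite_self]

theorem S2_hasSum (u : ℝ) (hu : 0 < u) :
    HasSum (fun n : ℕ => if (n : ℝ) ≤ u then (1 : ℝ) / n else 0) (S2 u) := by
  have h : S2 u = ∑ n ∈ Finset.Ioc 0 ⌊u⌋₊, if (n : ℝ) ≤ u then (1 : ℝ) / n else 0 := by
    unfold S2
    refine Finset.sum_congr rfl fun n hn => ?_
    rw [Finset.mem_Ioc] at hn
    rw [if_pos ((Nat.le_floor_iff hu.le).1 hn.2)]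
  rw [h]
  refine hasSum_sum_of_ne_finset_zero fun n hn => ?_
  rw [Finset.mem_Ioc, not_and_or] at hn
  rcases hn with hn | hn
  · have : n = 0 := by omega
    subst this
    simp
  · rw [if_neg]
    intro h1
    exact hn ((Nat.le_floor_iff hu.le).2 h1)

theorem S1_mono : Monotone S1 := by
  intro u v huv
  unfold S1
  refine Finset.sum_le_sum_of_subset_of_nonneg ?_ fun n _ _ => ca_nonneg n
  intro n hn
  rw [mem_primesUpTo (Real.exp_pos _).le] at hn ⊢
  exact ⟨hn.1, hn.2.trans (Real.exp_le_exp.2 huv)⟩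

theorem S2_mono : Monotone S2 := by
  intro u v huv
  unfold S2
  refine Finset.sum_le_sum_of_subset_of_nonneg ?_ fun n _ _ => by positivity
  exact Finset.Ioc_subset_Ioc le_rfl (Nat.floor_mono huv)

theorem S1_nonneg (u : ℝ) : 0 ≤ S1 u := Finset.sum_nonneg fun n _ => ca_nonneg n

theorem S2_nonneg (u : ℝ) : 0 ≤ S2 u := Finset.sum_nonneg fun n _ => by positivity

theorem S2_le {u : ℝ} (hu : 0 ≤ u) : S2 u ≤ u := by
  have h1 : S2 u ≤ ∑ n ∈ Finset.Ioc 0 ⌊u⌋₊, (1 : ℝ) := by
    unfold S2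
    refine Finset.sum_le_sum fun n hn => ?_
    rw [Finset.mem_Ioc] at hn
    rw [div_le_one (by exact_mod_cast hn.1)]
    exact_mod_cast hn.1
  rw [Finset.sum_const, Nat.card_Ioc, nsmul_eq_mul, mul_one, Nat.sub_zero] at h1
  exact h1.trans (Nat.floor_le hu)

/-! ### asymptotics of the step functions -/

theorem S2_lim : Tendsto (fun u => S2 u - Real.log u) atTop (𝓝 Real.eulerMascheroniConstant) := by
  have h1 : Tendsto (fun u : ℝ => ((harmonic ⌊u⌋₊ : ℚ) : ℝ) - Real.log (⌊u⌋₊ : ℝ)) atTop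
      (𝓝 Real.eulerMascheroniConstant) := Real.tendsto_harmonic_sub_log.comp tendsto_nat_floor_atTop
  have h2 : Tendsto (fun u : ℝ => Real.log ((⌊u⌋₊ : ℝ) / u)) atTop (𝓝 0) := by
    have h3 := (Real.continuousAt_log one_ne_zero).tendsto.comp
      (tendsto_nat_floor_div_atTop (R := ℝ))
    rw [Real.log_one] at h3
    exact h3
  have h3 := h1.add h2
  rw [add_zero] at h3
  refine h3.congr' ?_
  filter_upwards [eventually_ge_atTop (1 : ℝ)] with u hu
  have hf : (0 : ℝ) < ⌊u⌋₊ := by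
    have : 1 ≤ ⌊u⌋₊ := by rwa [Nat.one_le_floor_iff]
    exact_mod_cast this
  rw [Real.log_div hf.ne' (by linarith)]
  have h4 : ((harmonic ⌊u⌋₊ : ℚ) : ℝ) = S2 u := by
    unfold S2
    rw [harmonic_eq_sum_Icc]
    push_cast
    refine Finset.sum_congr ?_ fun n _ => by rw [one_div]
    ext n
    simp only [Finset.mem_Icc, Finset.mem_Ioc]
    omega
  rw [h4]
  ring

theorem S1_lim : ∃ C1 : ℝ, Tendsto (fun u => S1 u - Real.log u) atTop (𝓝 C1) := by
  -- the absolutely convergent part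
  let f : ℕ → ℝ := fun n => if n.Prime then ca n - 1 / n else 0
  have hf : Summable f := by
    refine Summable.of_nonneg_of_le ?_ ?_ ((Real.summable_one_div_nat_pow.mpr
      (by norm_num : 1 < 2)).mul_left 2)
    · intro n
      show 0 ≤ (if n.Prime then ca n - 1 / n else 0)
      split_ifs with h
      · obtain ⟨h1, h2⟩ := inv_prime_bounds h
        have := (neg_log_bounds h1 h2).1
        unfold ca
        rw [if_pos h]
        linarith
      · exact le_rfl
    · intro n
      show (if n.Prime then ca n - 1 / n else 0) ≤ _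
      split_ifs with h
      · obtain ⟨h1, h2⟩ := inv_prime_bounds h
        have := (neg_log_bounds h1 h2).2
        unfold ca
        rw [if_pos h]
        rw [div_pow, one_pow] at this
        linarith
      · positivity
  have hlim1 : Tendsto (fun u : ℝ => ∑ n ∈ Finset.range (⌊Real.exp u⌋₊ + 1), f n) atTop
      (𝓝 (∑' n, f n)) := by
    refine hf.hasSum.tendsto_sum_nat.comp ?_
    exact (tendsto_add_atTop_nat 1).comp (tendsto_nat_floor_atTop.comp Real.tendsto_exp_atTop)
  -- the sum of `1 / p`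
  obtain ⟨C, hC, hM⟩ := mertens_interval
  let g : ℝ → ℝ := fun u => ∑ p ∈ primesUpTo (Real.exp u), (1 : ℝ) / p - Real.log u
  have hdiff : ∀ u v : ℝ, 1 ≤ u → u ≤ v → |g v - g u| ≤ C / u := by
    intro u v hu huv
    have h2 : (2 : ℝ) ≤ Real.exp u := by
      have := Real.add_one_le_exp u
      linarith
    have h1 := hM (Real.exp u) (Real.exp v) h2 (Real.exp_le_exp.2 huv)
    rw [Real.log_exp, Real.log_exp, Real.log_div (by linarith) (by linarith)] at h1
    have h3 : primesUpTo (Real.exp v) = primesUpTo (Real.exp u) ∪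
        (Finset.Ioc ⌊Real.exp u⌋₊ ⌊Real.exp v⌋₊).filter Nat.Prime := by
      unfold Pool.Agent.Helper44.primesUpTo
      rw [← Finset.filter_union, Finset.Ioc_union_Ioc_eq_Ioc (Nat.zero_le _)
        (Nat.floor_mono (Real.exp_le_exp.2 huv))]
    have h4 : Disjoint (primesUpTo (Real.exp u))
        ((Finset.Ioc ⌊Real.exp u⌋₊ ⌊Real.exp v⌋₊).filter Nat.Prime) := by
      unfold Pool.Agent.Helper44.primesUpTo
      rw [Finset.disjoint_left]
      intro n hn hn'
      rw [Finset.mem_filter, Finset.mem_Ioc] at hn hn'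
      omega
    have h5 : g v - g u = ∑ q ∈ (Finset.Ioc ⌊Real.exp u⌋₊ ⌊Real.exp v⌋₊).filter Nat.Prime, (1:ℝ)/q -
        (Real.log v - Real.log u) := by
      show (∑ p ∈ primesUpTo (Real.exp v), (1 : ℝ) / p - Real.log v) -
        (∑ p ∈ primesUpTo (Real.exp u), (1 : ℝ) / p - Real.log u) = _
      rw [h3, Finset.sum_union h4]
      ring
    rw [h5]
    exact h1
  have hcau : CauchySeq g := by
    rw [Metric.cauchySeq_iff]
    intro ε hε
    refine ⟨max 1 (C / ε + 1), ?_⟩
    have key : ∀ m n : ℝ, max 1 (C / ε + 1) ≤ m → m ≤ n → |g n - g m| < ε := by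
      intro m n hm hmn
      have h1 : 1 ≤ m := (le_max_left _ _).trans hm
      have h2 : C / ε + 1 ≤ m := (le_max_right _ _).trans hm
      refine (hdiff m n h1 hmn).trans_lt ?_
      rw [div_lt_iff₀ (by linarith)]
      have h3 : C / ε < m := by linarith
      rw [div_lt_iff₀ hε] at h3
      linarith
    intro m hm n hn
    rw [Real.dist_eq]
    rcases le_total m n with h | h
    · rw [abs_sub_comm]
      exact key m n hm h
    · exact key n m hn h
  obtain ⟨C2, hC2⟩ := cauchySeq_tendsto_of_complete hcau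
  refine ⟨∑' n, f n + C2, ?_⟩
  refine (hlim1.add hC2).congr fun u => ?_
  show ∑ n ∈ Finset.range (⌊Real.exp u⌋₊ + 1), f n +
    (∑ p ∈ primesUpTo (Real.exp u), (1 : ℝ) / p - Real.log u) = S1 u - Real.log u
  have h6 : ∑ n ∈ Finset.range (⌊Real.exp u⌋₊ + 1), f n =
      ∑ p ∈ primesUpTo (Real.exp u), (ca p - 1 / p) := by
    show ∑ n ∈ Finset.range (⌊Real.exp u⌋₊ + 1), (if n.Prime then ca n - 1 / n else 0) = _
    rw [← Finset.sum_filter]
    refine Finset.sum_congr ?_ fun _ _ => rfl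
    unfold Pool.Agent.Helper44.primesUpTo
    ext n
    simp only [Finset.mem_filter, Finset.mem_range, Finset.mem_Ioc]
    constructor
    · rintro ⟨h1, h2⟩
      exact ⟨⟨h2.pos, by omega⟩, h2⟩
    · rintro ⟨⟨_, h1⟩, h2⟩
      exact ⟨by omega, h2⟩
  rw [h6, Finset.sum_sub_distrib]
  unfold S1
  ring

/-! ### the two Dirichlet series -/

/-- `n ^ (-δ)` -/
noncomputable def xx (δ : ℝ) (n : ℕ) : ℝ := Real.exp (-(δ * Real.log n))

theorem xx_pos (δ : ℝ) (n : ℕ) : 0 < xx δ n := Real.exp_pos _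

theorem xx_le_one {δ : ℝ} (hδ : 0 ≤ δ) (n : ℕ) : xx δ n ≤ 1 := by
  unfold xx
  rw [Real.exp_le_one_iff]
  have := mul_nonneg hδ (Real.log_natCast_nonneg n)
  linarith

theorem xx_rpow (δ : ℝ) {n : ℕ} (hn : 0 < n) : (1 : ℝ) / n * xx δ n = (n : ℝ) ^ (-(1 + δ)) := by
  have h : (0 : ℝ) < n := by exact_mod_cast hn
  unfold xx
  rw [Real.rpow_def_of_pos h, show Real.log n * -(1 + δ) = -Real.log n + -(δ * Real.log n) by ring,
    Real.exp_add, Real.exp_neg (Real.log n), Real.exp_log h, one_div]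

theorem summable_xx {δ : ℝ} (hδ : 0 < δ) : Summable fun n : ℕ => (1 : ℝ) / n * xx δ n := by
  have h := Real.summable_one_div_nat_rpow.2 (show (1 : ℝ) < 1 + δ by linarith)
  refine h.congr fun n => ?_
  rcases Nat.eq_zero_or_pos n with h0 | h0
  · subst h0
    rw [Nat.cast_zero, Real.zero_rpow (by linarith), div_zero, zero_mul]
  · rw [xx_rpow δ h0, Real.rpow_neg (Nat.cast_nonneg n), one_div]

/-- the terms of the logarithm of the Euler product -/
noncomputable def cw (δ : ℝ) (n : ℕ) : ℝ :=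
  if n.Prime then -Real.log (1 - 1 / n * xx δ n) else 0

theorem cw_bounds {δ : ℝ} (hδ : 0 ≤ δ) (n : ℕ) : 0 ≤ cw δ n ∧ cw δ n ≤ 2 * (1 / n * xx δ n) := by
  unfold cw
  split_ifs with h
  · obtain ⟨h1, h2⟩ := inv_prime_bounds h
    have h3 := xx_pos δ n
    have h4 := xx_le_one hδ n
    have h5 : (0 : ℝ) ≤ 1 / n * xx δ n := mul_nonneg h1 h3.le
    have h6 : (1 : ℝ) / n * xx δ n ≤ 1 / 2 := by nlinarith
    obtain ⟨h7, h8⟩ := neg_log_bounds h5 h6
    exact ⟨h5.trans h7, by nlinarith⟩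
  · have h3 := xx_pos δ n
    exact ⟨le_rfl, by positivity⟩

theorem summable_cw {δ : ℝ} (hδ : 0 < δ) : Summable (cw δ) :=
  Summable.of_nonneg_of_le (fun n => (cw_bounds hδ.le n).1) (fun n => (cw_bounds hδ.le n).2)
    ((summable_xx hδ).mul_left 2)

theorem summable_ca {δ : ℝ} (hδ : 0 < δ) : Summable fun n => ca n * xx δ n := by
  refine Summable.of_nonneg_of_le (fun n => mul_nonneg (ca_nonneg n) (xx_pos δ n).le) (fun n => ?_)
    ((summable_xx hδ).mul_left 2)
  have h1 := mul_le_mul_of_nonneg_right (ca_le n) (xx_pos δ n).le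
  calc ca n * xx δ n ≤ 2 / n * xx δ n := h1
    _ = 2 * (1 / n * xx δ n) := by ring

theorem zeta_eq {δ : ℝ} (hδ : 0 < δ) :
    riemannZeta ((1 + δ : ℝ) : ℂ) = ((Real.exp (∑' n, cw δ n) : ℝ) : ℂ) := by
  have h1 := riemannZeta_eulerProduct_exp_log (s := ((1 + δ : ℝ) : ℂ))
    (by rw [Complex.ofReal_re]; linarith)
  rw [← h1, Complex.ofReal_exp]
  congr 1
  have h2 : ∑' n, cw δ n = ∑' p : Nat.Primes, -Real.log (1 - 1 / (p : ℕ) * xx δ p) := by
    have h3 := tsum_subtype {n : ℕ | n.Prime} (fun n : ℕ => -Real.log (1 - 1 / n * xx δ n))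
    have h4 : cw δ = {n : ℕ | n.Prime}.indicator (fun n : ℕ => -Real.log (1 - 1 / n * xx δ n)) := by
      funext n
      unfold cw
      by_cases h : n.Prime
      · rw [if_pos h, indicator_of_mem (show n ∈ {n : ℕ | n.Prime} from h)]
      · rw [if_neg h, indicator_of_notMem (show n ∉ {n : ℕ | n.Prime} from h)]
    rw [h4, ← h3]
    rfl
  rw [h2, Complex.ofReal_tsum]
  refine tsum_congr fun p => ?_
  have hp : (p : ℕ).Prime := p.2
  obtain ⟨h5, h6⟩ := inv_prime_bounds hp
  have h7 := xx_pos δ p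
  have h8 := xx_le_one hδ.le p
  have h9 : (0 : ℝ) ≤ 1 - 1 / (p : ℕ) * xx δ p := by nlinarith
  rw [Complex.ofReal_neg, Complex.ofReal_log h9, xx_rpow δ hp.pos, Complex.ofReal_sub,
    Complex.ofReal_cpow (Nat.cast_nonneg _)]
  push_cast
  rfl

theorem W_lim : Tendsto (fun δ : ℝ => Real.log δ + ∑' n, cw δ n) (𝓝[>] 0) (𝓝 0) := by
  have h1 : Tendsto (fun δ : ℝ => (((1 + δ : ℝ) : ℂ) - 1) * riemannZeta ((1 + δ : ℝ) : ℂ)) (𝓝[>] 0)
      (𝓝 1) := by
    refine riemannZeta_residue_one.comp ?_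
    refine tendsto_nhdsWithin_iff.2 ⟨?_, ?_⟩
    · have h2 : Tendsto (fun δ : ℝ => ((1 + δ : ℝ) : ℂ)) (𝓝 0) (𝓝 (((1 + 0 : ℝ) : ℝ) : ℂ)) := by
        apply Continuous.tendsto
        fun_prop
      rw [add_zero, Complex.ofReal_one] at h2
      exact h2.mono_left nhdsWithin_le_nhds
    · filter_upwards [self_mem_nhdsWithin] with δ hδ
      have : (0 : ℝ) < δ := hδ
      simp only [mem_compl_iff, mem_singleton_iff]
      intro h
      have h3 := congrArg Complex.re h
      rw [Complex.ofReal_re, Complex.one_re] at h3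
      linarith
  have h2 : Tendsto (fun δ : ℝ => δ * Real.exp (∑' n, cw δ n)) (𝓝[>] 0) (𝓝 1) := by
    have h3 := (Complex.continuous_re.tendsto 1).comp h1
    rw [Complex.one_re] at h3
    refine h3.congr' ?_
    filter_upwards [self_mem_nhdsWithin] with δ hδ
    show ((((1 + δ : ℝ) : ℂ) - 1) * riemannZeta ((1 + δ : ℝ) : ℂ)).re = _
    rw [zeta_eq hδ]
    have h4 : (((1 + δ : ℝ) : ℂ) - 1) * ((Real.exp (∑' n, cw δ n) : ℝ) : ℂ) =
        ((δ * Real.exp (∑' n, cw δ n) : ℝ) : ℂ) := by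
      push_cast
      ring
    rw [h4, Complex.ofReal_re]
  have h3 := (Real.continuousAt_log one_ne_zero).tendsto.comp h2
  rw [Real.log_one] at h3
  refine h3.congr' ?_
  filter_upwards [self_mem_nhdsWithin] with δ hδ
  show Real.log (δ * Real.exp (∑' n, cw δ n)) = _
  rw [Real.log_mul (ne_of_gt hδ) (Real.exp_pos _).ne', Real.log_exp]

theorem D_lim : Tendsto (fun δ : ℝ => ∑' n, (ca n * xx δ n - cw δ n)) (𝓝[>] 0) (𝓝 0) := by
  have h0 : ∑' _ : ℕ, (0 : ℝ) = 0 := tsum_zero
  have hmain : Tendsto (fun δ : ℝ => ∑' n, (ca n * xx δ n - cw δ n)) (𝓝[>] 0)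
      (𝓝 (∑' _ : ℕ, (0 : ℝ))) := by
   refine tendsto_tsum_of_dominated_convergence (bound := fun n : ℕ => 2 * (1 / (n : ℝ) ^ 2))
    ((Real.summable_one_div_nat_pow.mpr (by norm_num : 1 < 2)).mul_left 2) ?_ ?_
   · intro n
     by_cases hp : n.Prime
     · obtain ⟨h1, h2⟩ := inv_prime_bounds hp
       have hx : Tendsto (fun δ : ℝ => xx δ n) (𝓝 0) (𝓝 (xx 0 n)) := by
         apply Continuous.tendsto
         unfold xx
         fun_prop
       have hx0 : xx 0 n = 1 := by
         unfold xx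
         rw [zero_mul, neg_zero, Real.exp_zero]
       rw [hx0] at hx
       have h3 : Tendsto (fun δ : ℝ => 1 - 1 / (n : ℝ) * xx δ n) (𝓝 0) (𝓝 (1 - 1 / (n : ℝ) * 1)) :=
         (hx.const_mul _).const_sub 1
       have h4 : (1 : ℝ) - 1 / (n : ℝ) * 1 ≠ 0 := by
         rw [mul_one]
         linarith
       have h5 := ((Real.continuousAt_log h4).tendsto.comp h3).neg
       have h6 := (hx.const_mul (ca n)).sub h5
       have h7 : ca n * 1 - -Real.log (1 - 1 / (n : ℝ) * 1) = 0 := by
         unfold ca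
         rw [if_pos hp, mul_one, mul_one, sub_self]
       rw [h7] at h6
       refine (h6.mono_left nhdsWithin_le_nhds).congr fun δ => ?_
       unfold cw
       rw [if_pos hp]
       rfl
     · refine tendsto_const_nhds.congr fun δ => ?_
       unfold ca cw
       rw [if_neg hp, if_neg hp, zero_mul, sub_zero]
   · filter_upwards [self_mem_nhdsWithin] with δ hδ
     intro n
     by_cases hp : n.Prime
     · obtain ⟨h1, h2⟩ := inv_prime_bounds hp
       have h3 := xx_pos δ n
       have h4 := xx_le_one (le_of_lt hδ) n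
       have h5 : (0 : ℝ) ≤ 1 / n * xx δ n := mul_nonneg h1 h3.le
       have h6 : (1 : ℝ) / n * xx δ n ≤ 1 / 2 := by nlinarith
       obtain ⟨h7, h8⟩ := neg_log_bounds h5 h6
       obtain ⟨h9, h10⟩ := neg_log_bounds h1 h2
       rw [Real.norm_eq_abs]
       unfold ca cw
       rw [if_pos hp, if_pos hp]
       rw [show (1 : ℝ) / (n : ℝ) ^ 2 = (1 / n) ^ 2 by rw [div_pow, one_pow]]
       generalize (1 : ℝ) / n = y at *
       generalize xx δ n = x at *
       generalize -Real.log (1 - y) = a at *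
       generalize -Real.log (1 - y * x) = b at *
       have hyx : (y * x) ^ 2 ≤ y ^ 2 := by
         refine pow_le_pow_left₀ h5 ?_ 2
         nlinarith
       rw [abs_le]
       constructor
       · nlinarith
       · nlinarith [mul_le_mul_of_nonneg_right h10 h3.le, sq_nonneg y]
     · unfold ca cw
       rw [if_neg hp, if_neg hp, zero_mul, sub_zero, norm_zero]
       positivity
  rwa [h0] at hmain

theorem F_lim : Tendsto (fun δ : ℝ => Real.log δ + ∑' n, ca n * xx δ n) (𝓝[>] 0) (𝓝 0) := by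
  have h := W_lim.add D_lim
  rw [add_zero] at h
  refine h.congr' ?_
  filter_upwards [self_mem_nhdsWithin] with δ hδ
  rw [(summable_ca hδ).tsum_sub (summable_cw hδ)]
  ring

theorem E_eq {δ : ℝ} (hδ : 0 < δ) :
    HasSum (fun n : ℕ => (1 : ℝ) / n * Real.exp (-(δ * n))) (-Real.log (1 - Real.exp (-δ))) := by
  have h1 : |Real.exp (-δ)| < 1 := by
    rw [abs_of_pos (Real.exp_pos _), Real.exp_lt_one_iff]
    linarith
  have h2 := Real.hasSum_pow_div_log_of_abs_lt_one h1
  have h3 := (hasSum_nat_add_iff (f := fun n : ℕ => (1 : ℝ) / n * Real.exp (-(δ * n))) 1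
    (g := -Real.log (1 - Real.exp (-δ)))).1 ?_
  · simpa using h3
  · refine h2.congr_fun ?_
    intro n
    show (1 : ℝ) / ((n + 1 : ℕ) : ℝ) * Real.exp (-(δ * ((n + 1 : ℕ) : ℝ))) =
      Real.exp (-δ) ^ (n + 1) / ((n : ℝ) + 1)
    rw [← Real.exp_nat_mul]
    push_cast
    rw [show ((n : ℝ) + 1) * -δ = -(δ * ((n : ℝ) + 1)) by ring]
    ring

theorem E_lim : Tendsto (fun δ : ℝ => Real.log δ + ∑' n : ℕ, (1 : ℝ) / n * Real.exp (-(δ * n)))
    (𝓝[>] 0) (𝓝 0) := by
  have h1 : HasDerivAt (fun δ : ℝ => -Real.exp (-δ)) 1 0 := by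
    have h2 : HasDerivAt (fun δ : ℝ => Real.exp (-δ)) (Real.exp (-0) * -1) 0 :=
      (hasDerivAt_neg (0 : ℝ)).exp
    have h3 := h2.neg
    rw [neg_zero, Real.exp_zero, one_mul, neg_neg] at h3
    exact h3
  have h2 := (hasDerivAt_iff_tendsto_slope_zero.1 h1).mono_left
    (nhdsWithin_mono (0 : ℝ) (fun x (hx : 0 < x) => (ne_of_gt hx : x ≠ 0)))
  have h3 := (Real.continuousAt_log one_ne_zero).tendsto.comp h2
  rw [Real.log_one] at h3
  have h4 := h3.neg
  rw [neg_zero] at h4
  refine h4.congr' ?_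
  filter_upwards [self_mem_nhdsWithin] with δ hδ
  have hδ' : (0 : ℝ) < δ := hδ
  rw [(E_eq hδ').tsum_eq]
  show -Real.log (δ⁻¹ • (-Real.exp (-(0 + δ)) - -Real.exp 0)) = _
  have h5 : Real.exp (-δ) < 1 := by
    rw [Real.exp_lt_one_iff]
    linarith
  rw [zero_add, Real.exp_zero, smul_eq_mul,
    show -Real.exp (-δ) - -1 = 1 - Real.exp (-δ) by ring,
    Real.log_mul (inv_ne_zero hδ'.ne') (by linarith), Real.log_inv]
  ring

/-! ### the constant -/

theorem const_eq {C1 : ℝ} (hC1 : Tendsto (fun u => S1 u - Real.log u) atTop (𝓝 C1)) :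
    C1 = Real.eulerMascheroniConstant := by
  -- the difference
  have hG : Tendsto (fun u => S1 u - S2 u) atTop (𝓝 (C1 - Real.eulerMascheroniConstant)) := by
    refine (hC1.sub S2_lim).congr fun u => ?_
    ring
  have hmeas : Measurable fun u => S1 u - S2 u := S1_mono.measurable.sub S2_mono.measurable
  obtain ⟨M, hM⟩ : ∃ M : ℝ, ∀ u, 0 < u → |S1 u - S2 u| ≤ M := by
    have h1 := (hG.eventually (Metric.ball_mem_nhds _ one_pos)).exists_forall_of_atTop
    obtain ⟨U, hU⟩ := h1
    refine ⟨max (|C1 - Real.eulerMascheroniConstant| + 1) (S1 U + S2 U), ?_⟩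
    intro u hu
    rcases le_total U u with h | h
    · refine le_trans ?_ (le_max_left _ _)
      have h2 := hU u h
      rw [Real.dist_eq] at h2
      have h3 := abs_sub_abs_le_abs_sub (S1 u - S2 u) (C1 - Real.eulerMascheroniConstant)
      linarith
    · refine le_trans ?_ (le_max_right _ _)
      have h2 := S1_mono h
      have h3 := S2_mono h
      have h4 := S1_nonneg u
      have h5 := S2_nonneg u
      rw [abs_le]
      constructor <;> linarith
  have hA := abel _ _ M hmeas hM hG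
  have hFE : Tendsto (fun δ : ℝ => (Real.log δ + ∑' n, ca n * xx δ n) -
      (Real.log δ + ∑' n : ℕ, (1 : ℝ) / n * Real.exp (-(δ * n)))) (𝓝[>] 0) (𝓝 (0 - 0)) :=
    F_lim.sub E_lim
  have hA2 : Tendsto (fun δ : ℝ => (Real.log δ + ∑' n, ca n * xx δ n) -
      (Real.log δ + ∑' n : ℕ, (1 : ℝ) / n * Real.exp (-(δ * n)))) (𝓝[>] 0)
      (𝓝 (C1 - Real.eulerMascheroniConstant)) := by
    refine hA.congr' ?_
    filter_upwards [self_mem_nhdsWithin] with δ hδ
    have hδ' : (0 : ℝ) < δ := hδ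
    have i2 : IntegrableOn (fun t => S2 (t / δ) * Real.exp (-t)) (Ioi 0) := by
      have h1 := (Real.GammaIntegral_convergent (s := 2) (by norm_num)).const_mul δ⁻¹
      refine Integrable.mono' h1 ?_ ?_
      · refine Measurable.aestronglyMeasurable ?_
        exact (S2_mono.measurable.comp (measurable_id.div_const δ)).mul
          (Real.measurable_exp.comp measurable_neg)
      · refine (ae_restrict_iff' measurableSet_Ioi).2 (Eventually.of_forall fun t ht => ?_)
        have ht' : 0 < t / δ := div_pos ht hδ'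
        rw [Real.norm_eq_abs, abs_of_nonneg (mul_nonneg (S2_nonneg _) (Real.exp_pos _).le)]
        calc S2 (t / δ) * Real.exp (-t) ≤ (t / δ) * Real.exp (-t) :=
              mul_le_mul_of_nonneg_right (S2_le ht'.le) (Real.exp_pos _).le
          _ = δ⁻¹ * (Real.exp (-t) * t ^ ((2 : ℝ) - 1)) := by
              rw [show (2 : ℝ) - 1 = 1 by norm_num, Real.rpow_one]
              ring
    have iG : IntegrableOn (fun t => (S1 (t / δ) - S2 (t / δ)) * Real.exp (-t)) (Ioi 0) := by
      refine Integrable.mono' ((integrableOn_exp_neg_Ioi 0).const_mul M) ?_ ?_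
      · refine Measurable.aestronglyMeasurable ?_
        exact (hmeas.comp (measurable_id.div_const δ)).mul
          (Real.measurable_exp.comp measurable_neg)
      · refine (ae_restrict_iff' measurableSet_Ioi).2 (Eventually.of_forall fun t ht => ?_)
        rw [Real.norm_eq_abs, abs_mul, abs_of_pos (Real.exp_pos _)]
        exact mul_le_mul_of_nonneg_right (hM _ (div_pos ht hδ')) (Real.exp_pos _).le
    have i1 : IntegrableOn (fun t => S1 (t / δ) * Real.exp (-t)) (Ioi 0) := by
      refine (iG.add i2).congr (Eventually.of_forall fun t => ?_)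
      show (S1 (t / δ) - S2 (t / δ)) * Real.exp (-t) + S2 (t / δ) * Real.exp (-t) = _
      ring
    have l1 := laplace ca (fun n => Real.log n) ca_nonneg (fun n => Real.log_natCast_nonneg n) δ hδ'
      (summable_ca hδ') S1 (fun u _ => S1_hasSum u)
    have l2 := laplace (fun n => (1 : ℝ) / n) (fun n => (n : ℝ)) (fun n => by positivity)
      (fun n => Nat.cast_nonneg n) δ hδ' (E_eq hδ').summable S2 (fun u hu => S2_hasSum u hu)
    have l3 : ∫ t in Ioi (0 : ℝ), (S1 (t / δ) - S2 (t / δ)) * Real.exp (-t) =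
        (∫ t in Ioi (0 : ℝ), S1 (t / δ) * Real.exp (-t)) -
          ∫ t in Ioi (0 : ℝ), S2 (t / δ) * Real.exp (-t) := by
      rw [← integral_sub i1 i2]
      refine integral_congr_ae (Eventually.of_forall fun t => ?_)
      show (S1 (t / δ) - S2 (t / δ)) * Real.exp (-t) = _
      ring
    rw [l3, l1, l2]
    unfold xx
    ring
  have h := tendsto_nhds_unique hA2 hFE
  linarith

theorem mertens3 : Mertens3 := by
  obtain ⟨C1, hC1⟩ := S1_lim
  have hγ := const_eq hC1
  subst hγ
  have h1 := ((Real.continuous_exp.tendsto _).comp (hC1.comp Real.tendsto_log_atTop).neg)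
  refine h1.congr' ?_
  filter_upwards [eventually_ge_atTop (2 : ℝ)] with z hz
  have hz0 : (0 : ℝ) < z := by linarith
  have hlz : 0 < Real.log z := Real.log_pos (by linarith)
  show Real.exp (-(S1 (Real.log z) - Real.log (Real.log z))) = VV z * Real.log z
  rw [show -(S1 (Real.log z) - Real.log (Real.log z)) = -S1 (Real.log z) + Real.log (Real.log z) by
    ring, Real.exp_add, Real.exp_log hlz]
  congr 1
  unfold S1 VV
  rw [Real.exp_log hz0, ← Finset.sum_neg_distrib, Real.exp_sum]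
  refine Finset.prod_congr rfl fun p hp => ?_
  rw [mem_primesUpTo hz0.le] at hp
  obtain ⟨h2, h3⟩ := inv_prime_bounds hp.1
  unfold ca
  rw [if_pos hp.1, neg_neg, Real.exp_log (by linarith)]

end Pool.Agent.Helper9.AV
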